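import Pool.Agent.R877.RN.Stm

/-! Project RN, piece FLAG (helper398): compactness of `O(n)`. -/

set_option autoImplicit false

namespace R877.RN
open Matrix Filter Topology

namespace FLAG398

variable {n : ℕ}

theorem isO_comm {l : Mat n} (h : IsO l) : lᵀ * l = 1 := mul_eq_one_comm.1 h

theorem isO_inv {l : Mat n} (h : IsO l) : l⁻¹ = lᵀ := Matrix.inv_eq_right_inv h

theorem isO_det {l : Mat n} (h : IsO l) : IsUnit l.det := by
  have h1 : l.det * (lᵀ).det = 1 := by
    rw [← det_mul, show l * lᵀ = 1 from h, det_one]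
  exact IsUnit.of_mul_eq_one _ h1

theorem par_mul {a : Fin n → ℝ} {A B : Mat n} (hA : Par a A) (hB : Par a B) : Par a (A * B) := by
  intro i j h
  rw [Matrix.mul_apply] at h
  obtain ⟨k, -, hk⟩ := Finset.exists_ne_zero_of_sum_ne_zero h
  exact (hB k j (right_ne_zero_of_mul hk)).trans (hA i k (left_ne_zero_of_mul hk))

theorem act_isO {l : Mat n} (h : IsO l) (μ : Br n) (i j k : Fin n) :
    act l μ i j k = ∑ p, ∑ q, ∑ r, l k r * μ p q r * l i p * l j q := by
  unfold act
  rw [isO_inv h]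
  rfl

theorem isCompact_O : IsCompact {l : Mat n | IsO l} := by
  have hc : IsCompact (Set.univ.pi fun _ : Fin n => Set.univ.pi fun _ : Fin n => Set.Icc (-1 : ℝ) 1 :
      Set (Fin n → Fin n → ℝ)) :=
    isCompact_univ_pi fun _ => isCompact_univ_pi fun _ => isCompact_Icc
  have hc' : IsCompact {l : Mat n | ∀ i j, l i j ∈ Set.Icc (-1 : ℝ) 1} := by
    refine (show {l : Mat n | ∀ i j, l i j ∈ Set.Icc (-1 : ℝ) 1} =
      (Set.univ.pi fun _ : Fin n => Set.univ.pi fun _ : Fin n => Set.Icc (-1 : ℝ) 1 :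
      Set (Fin n → Fin n → ℝ)) from ?_) ▸ hc
    ext l
    exact ⟨fun h i _ j _ => h i j, fun h i j => h i trivial j trivial⟩
  refine hc'.of_isClosed_subset ?_ ?_
  · have h1 : Continuous fun l : Mat n => l * lᵀ := continuous_id.matrix_mul continuous_id.matrix_transpose
    exact isClosed_eq h1 continuous_const
  · intro l hl i j
    have h1 : ∑ j, l i j * l i j = 1 := by
      have h2 := congrFun (congrFun (show l * lᵀ = 1 from hl) i) i
      rw [Matrix.mul_apply, Matrix.one_apply_eq] at h2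
      exact h2
    have h2 : l i j * l i j ≤ 1 := by
      rw [← h1]
      exact Finset.single_le_sum (f := fun j => l i j * l i j) (fun j _ => mul_self_nonneg _)
        (Finset.mem_univ j)
    constructor <;> nlinarith

end FLAG398

open FLAG398

theorem p_FLAG (hQR : P_QR) (hPINV : P_PINV) (hBT : P_BT) (hACTP : P_ACTP) (hSPEED : P_SPEED)
    (hEXD : P_EXD) (hEXL : P_EXL) (hACTMUL : P_ACTMUL) : P_FLAG := by
  intro n μ N T L hN hDer hT hL l a hl hCB hCS hCM
  have hE : ∀ t, IsUnit (ex N t).det := fun t => (hEXD n N μ hN hDer t).1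
  have hact : ∀ t, act (ex N t) μ = μ := fun t => (hEXD n N μ hN hDer t).2
  have hll := isO_comm hl
  have hldet : IsUnit (lᵀ).det := by
    rw [det_transpose]
    exact isO_det hl
  have hex : ∀ t, ∃ k : Mat n, IsO k ∧ Par a (k * (ex N t * lᵀ)) := fun t =>
    hQR n a _ (by rw [det_mul]; exact (hE t).mul hldet)
  choose K hK hKP using hex
  have hRdet : ∀ t, IsUnit (K t * (ex N t * lᵀ)).det := fun t => by
    rw [det_mul, det_mul]
    exact (isO_det (hK t)).mul ((hE t).mul hldet)
  have key : ∀ t (Z : Mat n), K t * Z * (K t)ᵀ =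
      (K t * (ex N t * lᵀ)) * (l * ((ex N t)⁻¹ * Z * ex N t) * lᵀ) * (K t * (ex N t * lᵀ))⁻¹ := by
    intro t Z
    have h1 : (K t * (ex N t * lᵀ))⁻¹ = l * ((ex N t)⁻¹ * (K t)ᵀ) := by
      refine Matrix.inv_eq_right_inv ?_
      calc K t * (ex N t * lᵀ) * (l * ((ex N t)⁻¹ * (K t)ᵀ)) =
            K t * (ex N t * (lᵀ * l) * (ex N t)⁻¹) * (K t)ᵀ := by simp only [Matrix.mul_assoc]
        _ = 1 := by
            rw [hll, mul_one, Matrix.mul_nonsing_inv _ (hE t), mul_one]
            exact hK t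
    rw [h1]
    symm
    calc K t * (ex N t * lᵀ) * (l * ((ex N t)⁻¹ * Z * ex N t) * lᵀ) * (l * ((ex N t)⁻¹ * (K t)ᵀ))
        = K t * (ex N t * (lᵀ * l) * (ex N t)⁻¹) * Z * (ex N t * (lᵀ * l) * (ex N t)⁻¹) * (K t)ᵀ := by
          simp only [Matrix.mul_assoc]
      _ = K t * Z * (K t)ᵀ := by
          rw [hll, mul_one, Matrix.mul_nonsing_inv _ (hE t), mul_one, mul_one]
  have hPm : ∀ t Z, Par a (l * ((ex N t)⁻¹ * Z * ex N t) * lᵀ) → Par a (K t * Z * (K t)ᵀ) := by
    intro t Z hZ
    rw [key t Z]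
    exact par_mul (par_mul (hKP t) hZ) (hPINV n a _ (hRdet t) (hKP t))
  have hcomm : ∀ S ∈ T, ∀ t, (ex N t)⁻¹ * S * ex N t = S := by
    intro S hS t
    have h1 : Commute S N := (hT S hS).2
    have h2 : Commute S (ex N t) := by
      unfold ex
      exact Commute.sum_right _ _ _ fun m _ => (h1.pow_right m).smul_right _
    rw [mul_assoc, h2.eq, ← mul_assoc, Matrix.nonsing_inv_mul _ (hE t), one_mul]
  have hParS : ∀ S ∈ T, Par a (l * S * lᵀ) := fun S hS i j h => (hCS S hS i j h).le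
  have h1 : ∀ t, CB (K t) a μ := by
    intro t
    have e : act (K t) μ = act (K t * (ex N t * lᵀ)) (act l μ) := by
      have e1 : K t * ex N t = K t * (ex N t * lᵀ) * l := by
        rw [mul_assoc, mul_assoc, hll, mul_one]
      rw [← hACTMUL n (K t * (ex N t * lᵀ)) l μ (hRdet t) (isO_det hl), ← e1,
        hACTMUL n (K t) (ex N t) μ (isO_det (hK t)) (hE t), hact t]
    intro i j k h
    rw [e] at h
    exact hACTP n a _ (act l μ) (hRdet t) (hKP t) hCB i j k h
  have h2 : ∀ t, ∀ S ∈ T, Par a (K t * S * (K t)ᵀ) := fun t S hS =>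
    hPm t S (by rw [hcomm S hS t]; exact hParS S hS)
  have h3 : ∀ t, ∀ S ∈ T, CS (K t) a S := by
    intro t S hS k i h
    refine le_antisymm (h2 t S hS k i h) ?_
    have h4 := h2 t Sᵀ (hT S hS).1 i k
    apply h4
    have h5 : K t * Sᵀ * (K t)ᵀ = (K t * S * (K t)ᵀ)ᵀ := by
      simp [Matrix.transpose_mul, mul_assoc]
    rw [h5]
    exact h
  have h4 : ∀ t, ∀ X ∈ L, CM (K t) a X := fun t X hX => hPm t X (hCM _ (hEXL n N L hN hL t X hX))
  have h5 : ∀ t, ∀ S ∈ T, dt S (K t) a = dt S l a := by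
    intro t S hS
    unfold dt
    rw [key t S, hcomm S hS t]
    exact hBT n a _ (l * S * lᵀ) (hRdet t) (hKP t) (hParS S hS)
  have : FirstCountableTopology (Mat n) := inferInstanceAs (FirstCountableTopology (Fin n → Fin n → ℝ))
  obtain ⟨l', hl', φ, hφ, hlim⟩ := (isCompact_O (n := n)).tendsto_subseq
    (x := fun j : ℕ => K j) (fun j => hK j)
  have hl'' : IsO l' := hl'
  have hcont : ∀ (Z : Mat n) (i j : Fin n), Tendsto (fun m : ℕ => (K (φ m) * Z * (K (φ m))ᵀ) i j) atTop
      (𝓝 ((l' * Z * l'ᵀ) i j)) := by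
    intro Z i j
    have hc : Continuous fun k : Mat n => (k * Z * kᵀ) i j :=
      ((continuous_id.matrix_mul continuous_const).matrix_mul continuous_id.matrix_transpose).matrix_elem i j
    exact (hc.tendsto l').comp hlim
  have hcb : ∀ i j k, Tendsto (fun m : ℕ => act (K (φ m)) μ i j k) atTop (𝓝 (act l' μ i j k)) := by
    intro i j k
    have hc : Continuous fun c : Mat n => ∑ p, ∑ q, ∑ r, c k r * μ p q r * c i p * c j q := by
      refine continuous_finsetSum _ fun p _ => continuous_finsetSum _ fun q _ =>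
        continuous_finsetSum _ fun r _ => ?_
      exact (((continuous_id.matrix_elem k r).mul continuous_const).mul
        (continuous_id.matrix_elem i p)).mul (continuous_id.matrix_elem j q)
    rw [act_isO hl'']
    refine ((hc.tendsto l').comp hlim).congr fun m => ?_
    exact (act_isO (hK _) μ i j k).symm
  have ne_ev : ∀ {f : ℕ → ℝ} {y : ℝ}, Tendsto f atTop (𝓝 y) → y ≠ 0 → ∃ m, f m ≠ 0 :=
    fun hf hy => (hf.eventually_ne hy).exists
  refine ⟨l', hl'', ?_, ?_, ?_, ?_, ?_⟩
  · intro i j k h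
    obtain ⟨m, hm⟩ := ne_ev (hcb i j k) h
    exact h1 _ i j k hm
  · intro S hS k i h
    obtain ⟨m, hm⟩ := ne_ev (hcont S k i) h
    exact h3 _ S hS k i hm
  · intro X hX i j h
    obtain ⟨m, hm⟩ := ne_ev (hcont X i j) h
    exact h4 _ X hX i j hm
  · intro i j h
    by_contra hlt
    rw [not_le] at hlt
    have h6 := hSPEED n N l a K hN hl hK (fun t => by rw [mul_assoc]; exact hKP t) i j hlt
    have h7 : Tendsto (fun m : ℕ => ((φ m : ℕ) : ℝ)) atTop atTop :=
      tendsto_natCast_atTop_atTop.comp hφ.tendsto_atTop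
    exact h (tendsto_nhds_unique (hcont N i j) (h6.comp h7))
  · intro S hS
    have h6 : Tendsto (fun m : ℕ => dt S (K (φ m)) a) atTop (𝓝 (dt S l' a)) := by
      unfold dt
      exact tendsto_finsetSum _ fun i _ => (hcont S i i).const_mul (a i)
    have h7 : (fun m : ℕ => dt S (K (φ m)) a) = fun _ => dt S l a := funext fun m => h5 _ S hS
    rw [h7] at h6
    exact (tendsto_nhds_unique h6 tendsto_const_nhds)

end R877.RN
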